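import Pool.Agent.N939.ME.Stm3

/-!
PROJECT ME (helper939), leaf ME29 (helper280): the scalar square function estimate.
-/

set_option autoImplicit false
open MeasureTheory Filter Topology Finset
open scoped Classical Real

namespace Pool.Agent.N280.ME

open Pool.Agent.N939.ME

theorem cc_succ (δ : ℕ → ℝ) (n : ℕ) (r : ℝ) : cc δ (n + 1) r = r * cc δ n r - δ n := by
  unfold cc
  rw [sum_range_succ]
  have : ∑ k ∈ range n, δ k * r ^ (n + 1 - 1 - k) = r * ∑ k ∈ range n, δ k * r ^ (n - 1 - k) := by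
    rw [mul_sum]
    refine sum_congr rfl fun k hk => ?_
    have hk' : k < n := mem_range.1 hk
    have e : n + 1 - 1 - k = (n - 1 - k) + 1 := by omega
    rw [e, pow_succ]; ring
  rw [this]
  simp
  ring

/-- the partial sums -/
noncomputable def PP (δ : ℕ → ℝ) (r : ℝ) (u : ℂ) (n : ℕ) : ℂ :=
  ∑ p ∈ range n, (cc δ p r : ℂ) * u ^ p

theorem PP_form (δ : ℕ → ℝ) (r : ℝ) (u : ℂ) (m : ℕ) :
    (1 - r * u) * PP δ r u (m + 1)
      = 1 - ∑ k ∈ range m, (δ k : ℂ) * u ^ (k + 1) - r * cc δ m r * u ^ (m + 1) := by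
  induction m with
  | zero => simp [PP, cc]
  | succ m ih =>
    have e : PP δ r u (m + 1 + 1) = PP δ r u (m + 1) + (cc δ (m + 1) r : ℂ) * u ^ (m + 1) := by
      unfold PP; rw [sum_range_succ _ (m + 1)]
    rw [e, mul_add, ih, sum_range_succ, cc_succ]
    push_cast
    ring

/-- the bound for the coefficients -/
noncomputable def bb (δ : ℕ → ℝ) (R : ℝ) (m : ℕ) : ℝ :=
  R ^ m + ∑ k ∈ range m, δ k * R ^ (m - 1 - k)

theorem cc_le {δ : ℕ → ℝ} (hδ : ∀ n, 0 ≤ δ n) {r R : ℝ} (hr : 0 ≤ r) (hrR : r ≤ R) (m : ℕ) :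
    |cc δ m r| ≤ bb δ R m := by
  unfold cc bb
  have h1 : 0 ≤ ∑ k ∈ range m, δ k * r ^ (m - 1 - k) :=
    sum_nonneg fun k _ => mul_nonneg (hδ k) (pow_nonneg hr _)
  have h2 : ∑ k ∈ range m, δ k * r ^ (m - 1 - k) ≤ ∑ k ∈ range m, δ k * R ^ (m - 1 - k) :=
    sum_le_sum fun k _ => mul_le_mul_of_nonneg_left (pow_le_pow_left₀ hr hrR _) (hδ k)
  have h3 : r ^ m ≤ R ^ m := pow_le_pow_left₀ hr hrR _
  have h4 : 0 ≤ r ^ m := pow_nonneg hr _
  rw [abs_le]
  constructor <;> linarith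

theorem bb_tendsto {δ : ℕ → ℝ} (hs : Summable δ) {R : ℝ} (hR0 : 0 ≤ R)
    (hR1 : R < 1) : Tendsto (bb δ R) atTop (𝓝 0) := by
  rw [← tendsto_add_atTop_iff_nat 1]
  have h1 : Tendsto (fun m : ℕ => R ^ (m + 1)) atTop (𝓝 0) :=
    (tendsto_add_atTop_iff_nat 1).2 (tendsto_pow_atTop_nhds_zero_of_lt_one hR0 hR1)
  have hg : Summable (fun n : ℕ => ‖R ^ n‖) := by
    simp only [norm_pow, Real.norm_eq_abs, abs_of_nonneg hR0]
    exact summable_geometric_of_lt_one hR0 hR1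
  have h2 : Summable (fun n : ℕ => ‖∑ k ∈ range (n + 1), δ k * R ^ (n - k)‖) :=
    summable_norm_sum_mul_range_of_summable_norm (f := δ) (g := fun n => R ^ n) hs.norm hg
  have h3 : Tendsto (fun n : ℕ => ∑ k ∈ range (n + 1), δ k * R ^ (n - k)) atTop (𝓝 0) :=
    tendsto_zero_iff_norm_tendsto_zero.2 h2.tendsto_atTop_zero
  have := h1.add h3
  simpa [bb] using this

theorem tail_le {δ : ℕ → ℝ} (hδ : ∀ n, 0 ≤ δ n) (hs : Summable δ) (ht : ∑' n, δ n = 1) {u : ℂ}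
    (hu : ‖u‖ ≤ 1) (m : ℕ) :
    ‖(∑' n, (δ n : ℂ) * u ^ (n + 1)) - ∑ k ∈ range m, (δ k : ℂ) * u ^ (k + 1)‖
      ≤ 1 - ∑ k ∈ range m, δ k := by
  have hb : ∀ n, ‖(δ n : ℂ) * u ^ (n + 1)‖ ≤ δ n := by
    intro n
    rw [norm_mul, norm_pow, Complex.norm_real, Real.norm_eq_abs, abs_of_nonneg (hδ n)]
    exact mul_le_of_le_one_right (hδ n) (pow_le_one₀ (norm_nonneg _) hu)
  have hsu : Summable (fun n => (δ n : ℂ) * u ^ (n + 1)) := Summable.of_norm_bounded hs hb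
  rw [← hsu.sum_add_tsum_nat_add m, add_sub_cancel_left]
  have hs' : Summable (fun n => δ (n + m)) := (summable_nat_add_iff m).2 hs
  have h1 : ‖∑' n, (δ (n + m) : ℂ) * u ^ (n + m + 1)‖ ≤ ∑' n, δ (n + m) :=
    tsum_of_norm_bounded hs'.hasSum fun n => hb (n + m)
  have h2 := hs.sum_add_tsum_nat_add m
  rw [ht] at h2
  linarith

theorem main_pt {δ : ℕ → ℝ} (hδ : ∀ n, 0 ≤ δ n) (hs : Summable δ) (ht : ∑' n, δ n = 1)
    (hsq : ∀ u : ℂ, ‖u‖ ≤ 1 → (1 - ∑' n, (δ n : ℂ) * u ^ (n + 1)) ^ 2 = 1 - u)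
    {R r : ℝ} (hr : 0 ≤ r) (hrR : r ≤ R) (hR1 : R < 1) {u : ℂ} (hu : ‖u‖ = 1) (m : ℕ) :
    ‖PP δ r u (m + 1)‖ ^ 2 ≤ 4 * ‖1 - u‖ / ((1 - r) ^ 2 + ‖1 - u‖ ^ 2 / 4)
      + 2 * (1 - ∑ k ∈ range m, δ k + bb δ R m) ^ 2 / (1 - R) ^ 2 := by
  set d := ‖1 - u‖ with hd
  set φ : ℂ := 1 - ∑' n, (δ n : ℂ) * u ^ (n + 1) with hφ
  set E : ℝ := 1 - ∑ k ∈ range m, δ k + bb δ R m with hE
  have hd0 : 0 ≤ d := norm_nonneg _
  have hφ2 : ‖φ‖ ^ 2 = d := by
    rw [← norm_pow, hφ, hsq u hu.le]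
  have htl := tail_le hδ hs ht hu.le m
  have hcc := cc_le hδ hr hrR m
  have hb0 : 0 ≤ bb δ R m := (abs_nonneg _).trans hcc
  have hr1 : r < 1 := lt_of_le_of_lt hrR hR1
  have hru : ‖(r : ℂ) * u‖ = r := by
    rw [norm_mul, hu, mul_one, Complex.norm_real, Real.norm_eq_abs, abs_of_nonneg hr]
  set q := ‖1 - (r : ℂ) * u‖ with hq
  have hq1 : 1 - r ≤ q := by
    have := norm_sub_norm_le (1 : ℂ) ((r : ℂ) * u)
    rw [norm_one, hru] at this
    exact this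
  have hq2 : d ≤ 2 * q := by
    have h1 : (1 - u) = (1 - (r : ℂ) * u) + ((r : ℂ) - 1) * u := by ring
    have h2 : ‖((r : ℂ) - 1) * u‖ = 1 - r := by
      rw [norm_mul, hu, mul_one, ← Complex.ofReal_one, ← Complex.ofReal_sub, Complex.norm_real,
        Real.norm_eq_abs, abs_of_nonpos (by linarith)]
      ring
    have h3 : d ≤ q + (1 - r) := by
      rw [hd, h1, ← h2]
      exact norm_add_le _ _
    linarith
  have hq0 : 0 < q := by linarith
  have hfin : ‖(1 - (r : ℂ) * u) * PP δ r u (m + 1)‖ ≤ ‖φ‖ + E := by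
    rw [PP_form]
    have e : (1 - ∑ k ∈ range m, (δ k : ℂ) * u ^ (k + 1) - r * cc δ m r * u ^ (m + 1) : ℂ)
        = φ + (((∑' n, (δ n : ℂ) * u ^ (n + 1)) - ∑ k ∈ range m, (δ k : ℂ) * u ^ (k + 1))
          - r * cc δ m r * u ^ (m + 1)) := by
      rw [hφ]; ring
    rw [e]
    refine (norm_add_le _ _).trans (add_le_add le_rfl ?_)
    refine (norm_sub_le _ _).trans ?_
    rw [hE]
    refine add_le_add htl ?_
    rw [norm_mul, norm_mul, norm_pow, hu, one_pow, mul_one, Complex.norm_real, Complex.norm_real,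
      Real.norm_eq_abs, Real.norm_eq_abs, abs_of_nonneg hr]
    calc r * |cc δ m r| ≤ 1 * bb δ R m := mul_le_mul hr1.le hcc (abs_nonneg _) zero_le_one
      _ = bb δ R m := one_mul _
  rw [norm_mul, ← hq] at hfin
  have hP0 : 0 ≤ ‖PP δ r u (m + 1)‖ := norm_nonneg _
  have hE0 : 0 ≤ E := by
    have := (norm_nonneg _).trans htl
    rw [hE]; linarith
  have h1 : (q * ‖PP δ r u (m + 1)‖) ^ 2 ≤ 2 * d + 2 * E ^ 2 := by
    calc (q * ‖PP δ r u (m + 1)‖) ^ 2 ≤ (‖φ‖ + E) ^ 2 :=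
          pow_le_pow_left₀ (by positivity) hfin 2
      _ ≤ 2 * ‖φ‖ ^ 2 + 2 * E ^ 2 := by nlinarith [sq_nonneg (‖φ‖ - E)]
      _ = 2 * d + 2 * E ^ 2 := by rw [hφ2]
  have h2 : ‖PP δ r u (m + 1)‖ ^ 2 ≤ 2 * d / q ^ 2 + 2 * E ^ 2 / q ^ 2 := by
    rw [← add_div, le_div_iff₀ (by positivity)]
    calc _ = (q * ‖PP δ r u (m + 1)‖) ^ 2 := by ring
      _ ≤ _ := h1
  have h3 : 2 * d / q ^ 2 ≤ 4 * d / ((1 - r) ^ 2 + d ^ 2 / 4) := by
    have hpos : 0 < (1 - r) ^ 2 + d ^ 2 / 4 := by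
      have : 0 < (1 - r) ^ 2 := by
        have : 0 < 1 - r := by linarith
        positivity
      positivity
    rw [div_le_div_iff₀ (by positivity) hpos]
    have h4 : (1 - r) ^ 2 ≤ q ^ 2 := pow_le_pow_left₀ (by linarith) hq1 2
    have h5 : d ^ 2 ≤ (2 * q) ^ 2 := pow_le_pow_left₀ hd0 hq2 2
    have h6 : (1 - r) ^ 2 + d ^ 2 / 4 ≤ 2 * q ^ 2 := by nlinarith
    nlinarith
  have h4 : 2 * E ^ 2 / q ^ 2 ≤ 2 * E ^ 2 / (1 - R) ^ 2 := by
    have hR : 0 < 1 - R := by linarith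
    refine div_le_div_of_nonneg_left (by positivity) (by positivity) ?_
    exact pow_le_pow_left₀ hR.le (by linarith) 2
  linarith

theorem int_le {d R : ℝ} (hd : 0 ≤ d) (hR1 : R ≤ 1) :
    IntervalIntegrable (fun r : ℝ => 4 * d / ((1 - r) ^ 2 + d ^ 2 / 4)) volume 0 R ∧
    ∫ r in (0:ℝ)..R, 4 * d / ((1 - r) ^ 2 + d ^ 2 / 4) ≤ 4 * π := by
  rcases hd.eq_or_lt with h | h
  · subst h
    simp only [mul_zero, zero_div]
    refine ⟨intervalIntegrable_const, ?_⟩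
    simp only [intervalIntegral.integral_zero]
    positivity
  · have hcont : Continuous (fun r : ℝ => 4 * d / ((1 - r) ^ 2 + d ^ 2 / 4)) := by
      refine Continuous.div (by fun_prop) (by fun_prop) fun r => ?_
      have : 0 < d ^ 2 / 4 := by positivity
      have := sq_nonneg (1 - r)
      linarith
    refine ⟨hcont.intervalIntegrable _ _, ?_⟩
    have hder : ∀ x ∈ Set.uIcc 0 R, HasDerivAt (fun r : ℝ => -8 * Real.arctan (2 * (1 - r) / d))
        (4 * d / ((1 - x) ^ 2 + d ^ 2 / 4)) x := by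
      intro x _
      have h1 : HasDerivAt (fun r : ℝ => 2 * (1 - r) / d) (-2 / d) x := by
        have h0 := (((hasDerivAt_id x).const_sub 1).const_mul 2).div_const d
        have e : (2 * -1 / d : ℝ) = -2 / d := by ring
        rw [e] at h0
        exact h0
      have h2 := (h1.arctan).const_mul (-8)
      have hne : (1 - x) ^ 2 + d ^ 2 / 4 ≠ 0 := by
        have : 0 < d ^ 2 / 4 := by positivity
        have := sq_nonneg (1 - x)
        linarith
      have hne2 : 1 + (2 * (1 - x) / d) ^ 2 ≠ 0 := by positivity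
      have e : -8 * (1 / (1 + (2 * (1 - x) / d) ^ 2) * (-2 / d))
          = 4 * d / ((1 - x) ^ 2 + d ^ 2 / 4) := by
        rw [eq_div_iff hne]
        field_simp
        ring
      rw [e] at h2
      exact h2
    rw [intervalIntegral.integral_eq_sub_of_hasDerivAt hder (hcont.intervalIntegrable _ _)]
    have h3 := Real.arctan_lt_pi_div_two (2 * (1 - 0) / d)
    have h4 := Real.neg_pi_div_two_lt_arctan (2 * (1 - R) / d)
    have h5 : 0 ≤ Real.arctan (2 * (1 - R) / d) := Real.arctan_nonneg.2 (by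
      have : 0 ≤ 1 - R := by linarith
      positivity)
    linarith

theorem opc (hDL : S_DL) : S_OPc := by
  refine ⟨4 * π + 1, fun δ hI R hR0 hR1 => ?_⟩
  obtain ⟨hδ, hs, ht, hsq⟩ := hDL δ hI
  have hR : 0 < 1 - R := by linarith
  have hE : Tendsto (fun m => 2 * (1 - ∑ k ∈ range m, δ k + bb δ R m) ^ 2 / (1 - R) ^ 2) atTop
      (𝓝 0) := by
    have h1 : Tendsto (fun m => ∑ k ∈ range m, δ k) atTop (𝓝 1) := by
      rw [← ht]; exact hs.hasSum.tendsto_sum_nat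
    have h2 := bb_tendsto hs hR0.le hR1
    have h3 := (((h1.const_sub 1).add h2).pow 2).const_mul 2
    have h4 := h3.div_const ((1 - R) ^ 2)
    simpa using h4
  obtain ⟨m0, hm0⟩ := eventually_atTop.1 (hE.eventually_le_const (show (0:ℝ) < 1 from one_pos))
  refine ⟨m0 + 1, fun n hn θ => ?_⟩
  obtain ⟨m, rfl⟩ : ∃ m, n = m + 1 := ⟨n - 1, by omega⟩
  have hm := hm0 m (by omega)
  set u : ℂ := Complex.exp (θ * Complex.I) with hu
  have hu1 : ‖u‖ = 1 := Complex.norm_exp_ofReal_mul_I θ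
  have hpow : ∀ p : ℕ, u ^ p = (Real.cos (p * θ) : ℂ) + (Real.sin (p * θ) : ℂ) * Complex.I := by
    intro p
    rw [hu, ← Complex.exp_nat_mul, ← mul_assoc, Complex.exp_mul_I]
    push_cast
    rfl
  have hbr : ∀ r : ℝ, (∑ p ∈ range (m + 1), cc δ p r * Real.cos (p * θ)) ^ 2
        + (∑ p ∈ range (m + 1), cc δ p r * Real.sin (p * θ)) ^ 2
        = ‖PP δ r u (m + 1)‖ ^ 2 := by
    intro r
    have e : PP δ r u (m + 1) = ((∑ p ∈ range (m + 1), cc δ p r * Real.cos (p * θ) : ℝ) : ℂ)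
        + ((∑ p ∈ range (m + 1), cc δ p r * Real.sin (p * θ) : ℝ) : ℂ) * Complex.I := by
      unfold PP
      push_cast
      rw [sum_mul, ← sum_add_distrib]
      refine sum_congr rfl fun p _ => ?_
      rw [hpow]
      push_cast
      ring
    rw [e, ← Complex.normSq_eq_norm_sq, Complex.normSq_add_mul_I]
  simp only [hbr]
  obtain ⟨hi, hle⟩ := int_le (d := ‖1 - u‖) (norm_nonneg _) hR1.le
  have hcont : Continuous (fun r : ℝ => ‖PP δ r u (m + 1)‖ ^ 2) := by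
    unfold PP cc
    fun_prop
  calc ∫ r in (0:ℝ)..R, ‖PP δ r u (m + 1)‖ ^ 2
      ≤ ∫ r in (0:ℝ)..R, (4 * ‖1 - u‖ / ((1 - r) ^ 2 + ‖1 - u‖ ^ 2 / 4) + 1) := by
        refine intervalIntegral.integral_mono_on hR0.le (hcont.intervalIntegrable _ _)
          (hi.add intervalIntegrable_const) fun r hr => ?_
        have := main_pt hδ hs ht hsq hr.1 hr.2 hR1 hu1 m
        linarith
    _ = (∫ r in (0:ℝ)..R, 4 * ‖1 - u‖ / ((1 - r) ^ 2 + ‖1 - u‖ ^ 2 / 4)) + R := by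
        rw [intervalIntegral.integral_add hi intervalIntegrable_const]
        simp
    _ ≤ 4 * π + 1 := by linarith

end Pool.Agent.N280.ME
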