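import Pool.Agent.N939.ME.Stm

/-!
PROJECT ME (helper939), leaf ME21 (helper280): oscillation of a bounded backward martingale.
-/

set_option autoImplicit false
set_option linter.unusedSectionVars false
open MeasureTheory ProbabilityTheory Filter Topology Finset
open scoped Classical NNReal ENNReal

namespace Pool.Agent.N280.ME

open Pool.Agent.N939.ME

/-- iterated killed operator with indicator sets -/
noncomputable def U {S : Type} [MeasurableSpace S] (Q : Kernel S S) (B : ℕ → Set S) :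
    ℕ → ℕ → S → ℝ
  | 0, s => (B s).indicator 1
  | n + 1, s => (B s).indicator (TT Q (U Q B n (s + 1)))

section U

variable {S : Type} [MeasurableSpace S] {Q : Kernel S S} [IsMarkovKernel Q]

theorem TT_range {h : S → ℝ} (hm : Measurable h) (h01 : ∀ x, 0 ≤ h x ∧ h x ≤ 1) (x : S) :
    0 ≤ TT Q h x ∧ TT Q h x ≤ 1 := by
  unfold TT
  constructor
  · exact integral_nonneg fun y => (h01 y).1
  · have hint : Integrable h (Q x) :=
      Integrable.of_bound hm.aestronglyMeasurable 1
        (ae_of_all _ fun y => by rw [Real.norm_eq_abs, abs_le]; constructor <;> linarith [(h01 y).1, (h01 y).2])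
    calc ∫ y, h y ∂(Q x) ≤ ∫ _, (1:ℝ) ∂(Q x) :=
          integral_mono hint (integrable_const _) fun y => (h01 y).2
      _ = 1 := by simp

theorem U_meas (hT : ∀ h : S → ℝ, Measurable h → Measurable (TT Q h)) {B : ℕ → Set S}
    (hB : ∀ t, MeasurableSet (B t)) (n s : ℕ) : Measurable (U Q B n s) := by
  induction n generalizing s with
  | zero => exact measurable_one.indicator (hB s)
  | succ n ih => exact (hT _ (ih (s + 1))).indicator (hB s)

theorem U_range (hT : ∀ h : S → ℝ, Measurable h → Measurable (TT Q h)) {B : ℕ → Set S}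
    (hB : ∀ t, MeasurableSet (B t)) (n s : ℕ) (x : S) : 0 ≤ U Q B n s x ∧ U Q B n s x ≤ 1 := by
  induction n generalizing s x with
  | zero =>
    simp only [U, Set.indicator_apply, Pi.one_apply]
    split_ifs <;> norm_num
  | succ n ih =>
    simp only [U, Set.indicator_apply]
    split_ifs
    · exact TT_range (U_meas hT hB n (s + 1)) (fun y => ih (s + 1) y) x
    · norm_num

end U

section chain

variable {S : Type} [mS : MeasurableSpace S] {Q : Kernel S S} [IsMarkovKernel Q] {ν : Measure S}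
  [IsProbabilityMeasure ν] {Ω : Type} [mΩ : MeasurableSpace Ω] {μ : Measure Ω}
  [IsProbabilityMeasure μ] {X : ℕ → Ω → S}

theorem FX_le (hX : ∀ i, Measurable (X i)) (n : ℕ) : FX X n ≤ mΩ :=
  iSup₂_le fun i _ => (hX i).comap_le

theorem FX_mono {m n : ℕ} (h : m ≤ n) : FX X m ≤ FX X n :=
  iSup₂_le fun i hi => le_iSup₂_of_le i (le_trans hi h) le_rfl

theorem X_meas_FX {i n : ℕ} (h : i ≤ n) : Measurable[FX X n] (X i) :=
  Measurable.mono (comap_measurable (X i)) (le_iSup₂_of_le i h le_rfl) le_rfl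

theorem bdd_int {f : Ω → ℝ} (hf : Measurable f) (h : ∀ ω, 0 ≤ f ω ∧ f ω ≤ 1) :
    Integrable f μ :=
  Integrable.of_bound hf.aestronglyMeasurable 1
    (ae_of_all _ fun y => by rw [Real.norm_eq_abs, abs_le]; constructor <;> linarith [(h y).1, (h y).2])

theorem bdd_int' {f : S → ℝ} (hf : Measurable f) (h : ∀ ω, 0 ≤ f ω ∧ f ω ≤ 1) :
    Integrable f ν :=
  Integrable.of_bound hf.aestronglyMeasurable 1
    (ae_of_all _ fun y => by rw [Real.norm_eq_abs, abs_le]; constructor <;> linarith [(h y).1, (h y).2])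

/-- the product formula -/
theorem prod_form (hT : ∀ h : S → ℝ, Measurable h → Measurable (TT Q h))
    (hX : ∀ i, Measurable (X i))
    (hML : ∀ (n : ℕ) (g : S → ℝ) (Z : Ω → ℝ), Measurable g → Integrable g ν →
      Measurable[FX X n] Z → Integrable (fun ω => Z ω * g (X (n + 1) ω)) μ →
      Integrable (fun ω => Z ω * TT Q g (X n ω)) μ ∧
      ∫ ω, Z ω * g (X (n + 1) ω) ∂μ = ∫ ω, Z ω * TT Q g (X n ω) ∂μ)
    {B : ℕ → Set S} (hB : ∀ t, MeasurableSet (B t)) (n s : ℕ) (Y : Ω → ℝ)
    (hY : Measurable[FX X s] Y) (hY1 : ∀ ω, 0 ≤ Y ω ∧ Y ω ≤ 1) :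
    ∫ ω, Y ω * ∏ i ∈ range (n + 1), (B (s + i)).indicator (1 : S → ℝ) (X (s + i) ω) ∂μ
      = ∫ ω, Y ω * U Q B n s (X s ω) ∂μ := by
  induction n generalizing s Y with
  | zero => simp [U]
  | succ n ih =>
    have hYm : Measurable[FX X s] (fun ω => Y ω * (B s).indicator (1 : S → ℝ) (X s ω)) :=
      hY.mul ((measurable_one.indicator (hB s)).comp (X_meas_FX le_rfl))
    have hY01 : ∀ ω, 0 ≤ Y ω * (B s).indicator (1 : S → ℝ) (X s ω) ∧
        Y ω * (B s).indicator (1 : S → ℝ) (X s ω) ≤ 1 := by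
      intro ω
      simp only [Set.indicator_apply, Pi.one_apply]
      split_ifs
      · simpa using hY1 ω
      · simp
    have h1 := ih (s + 1) (fun ω => Y ω * (B s).indicator (1 : S → ℝ) (X s ω))
      (Measurable.mono hYm (FX_mono (Nat.le_succ s)) le_rfl) hY01
    have hUm := U_meas hT hB n (s + 1)
    have hU01 := U_range hT hB n (s + 1)
    have hgi : Integrable (U Q B n (s + 1)) ν := bdd_int' hUm hU01
    have hZi : Integrable (fun ω => (Y ω * (B s).indicator (1 : S → ℝ) (X s ω)) *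
        U Q B n (s + 1) (X (s + 1) ω)) μ := by
      refine bdd_int ((Measurable.mono hYm (FX_le hX s) le_rfl).mul (hUm.comp (hX (s + 1)))) ?_
      intro ω
      have a := hY01 ω
      have b := hU01 (X (s + 1) ω)
      exact ⟨mul_nonneg a.1 b.1, mul_le_one₀ a.2 b.1 b.2⟩
    have h2 := (hML s (U Q B n (s + 1)) _ hUm hgi hYm hZi).2
    calc ∫ ω, Y ω * ∏ i ∈ range (n + 1 + 1), (B (s + i)).indicator (1 : S → ℝ) (X (s + i) ω) ∂μ
        = ∫ ω, (Y ω * (B s).indicator (1 : S → ℝ) (X s ω)) *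
          ∏ i ∈ range (n + 1), (B (s + 1 + i)).indicator (1 : S → ℝ) (X (s + 1 + i) ω) ∂μ := by
          refine integral_congr_ae (ae_of_all _ fun ω => ?_)
          simp only
          rw [prod_range_succ']
          have : ∀ i, s + 1 + i = s + (i + 1) := fun i => by ring
          simp only [this, add_zero]
          ring
      _ = ∫ ω, (Y ω * (B s).indicator (1 : S → ℝ) (X s ω)) * U Q B n (s + 1) (X (s + 1) ω) ∂μ := h1
      _ = ∫ ω, (Y ω * (B s).indicator (1 : S → ℝ) (X s ω)) *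
            TT Q (U Q B n (s + 1)) (X s ω) ∂μ := h2
      _ = ∫ ω, Y ω * U Q B (n + 1) s (X s ω) ∂μ := by
          refine integral_congr_ae (ae_of_all _ fun ω => ?_)
          simp only [U, Set.indicator_apply, Pi.one_apply]
          split_ifs <;> simp

/-- the sigma-algebra of `X_s, …, X_h` -/
@[reducible] def GX (X : ℕ → Ω → S) (h s : ℕ) : MeasurableSpace Ω :=
  ⨆ j ∈ Set.Icc s h, MeasurableSpace.comap (X j) mS

theorem GX_le (hX : ∀ i, Measurable (X i)) (h s : ℕ) : GX X h s ≤ mΩ :=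
  iSup₂_le fun i _ => (hX i).comap_le

theorem GX_mono (h : ℕ) {s t : ℕ} (hst : s ≤ t) : GX X h t ≤ GX X h s :=
  iSup₂_le fun i hi => le_iSup₂_of_le i (Set.Icc_subset_Icc_left hst hi) le_rfl

theorem X_meas_GX {h s i : ℕ} (hi : i ∈ Set.Icc s h) : Measurable[GX X h s] (X i) :=
  Measurable.mono (comap_measurable (X i)) (le_iSup₂_of_le i hi le_rfl) le_rfl

/-- orthogonality of the increments of the backward martingale, on sets -/
theorem set_form (hT : ∀ h : S → ℝ, Measurable h → Measurable (TT Q h))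
    (hX : ∀ i, Measurable (X i)) (hmap : ∀ n, μ.map (X n) = ν)
    (hML : ∀ (n : ℕ) (g : S → ℝ) (Z : Ω → ℝ), Measurable g → Integrable g ν →
      Measurable[FX X n] Z → Integrable (fun ω => Z ω * g (X (n + 1) ω)) μ →
      Integrable (fun ω => Z ω * TT Q g (X n ω)) μ ∧
      ∫ ω, Z ω * g (X (n + 1) ω) ∂μ = ∫ ω, Z ω * TT Q g (X n ω) ∂μ)
    {a b : S → ℝ} (ha : Measurable a) (ha1 : ∀ x, 0 ≤ a x ∧ a x ≤ 1)
    (hb : Measurable b) (hb1 : ∀ x, 0 ≤ b x ∧ b x ≤ 1)
    (hab : ∀ g : S → ℝ, Integrable g ν → ∫ x, b x * g x ∂ν = ∫ x, a x * TT Q g x ∂ν)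
    (h t : ℕ) (hth : t + 1 ≤ h) (A : Set Ω) (hA : MeasurableSet[GX X h (t + 1)] A) :
    ∫ ω in A, a (X t ω) ∂μ = ∫ ω in A, b (X (t + 1) ω) ∂μ := by
  have hai : Integrable (fun ω => a (X t ω)) μ := bdd_int (ha.comp (hX t)) fun ω => ha1 _
  have hbi : Integrable (fun ω => b (X (t + 1) ω)) μ :=
    bdd_int (hb.comp (hX (t + 1))) fun ω => hb1 _
  have hGle := GX_le (X := X) hX h (t + 1)
  -- rectangles
  have key : ∀ B : ℕ → Set S, (∀ j, MeasurableSet (B j)) →
      ∫ ω, a (X t ω) * ∏ i ∈ range (h - (t + 1) + 1),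
        (B (t + 1 + i)).indicator (1 : S → ℝ) (X (t + 1 + i) ω) ∂μ
      = ∫ ω, b (X (t + 1) ω) * ∏ i ∈ range (h - (t + 1) + 1),
        (B (t + 1 + i)).indicator (1 : S → ℝ) (X (t + 1 + i) ω) ∂μ := by
    intro B hB
    set n := h - (t + 1) with hn
    have hUm := U_meas hT hB n (t + 1)
    have hU01 := U_range hT hB n (t + 1)
    have hTm := hT _ hUm
    have hT01 := TT_range (Q := Q) hUm hU01
    have hgi : Integrable (U Q B n (t + 1)) ν := bdd_int' hUm hU01
    have e1 := prod_form (μ := μ) (ν := ν) hT hX hML hB n (t + 1) (fun ω => a (X t ω))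
      (ha.comp (X_meas_FX (Nat.le_succ t))) (fun ω => ha1 _)
    have e2 := prod_form (μ := μ) (ν := ν) hT hX hML hB n (t + 1) (fun ω => b (X (t + 1) ω))
      (hb.comp (X_meas_FX le_rfl)) (fun ω => hb1 _)
    have e3 := (hML t (U Q B n (t + 1)) (fun ω => a (X t ω)) hUm hgi
      (ha.comp (X_meas_FX le_rfl)) (by
        refine bdd_int ((ha.comp (hX t)).mul (hUm.comp (hX (t + 1)))) ?_
        intro ω
        have a' := ha1 (X t ω)
        have b' := hU01 (X (t + 1) ω)
        exact ⟨mul_nonneg a'.1 b'.1, mul_le_one₀ a'.2 b'.1 b'.2⟩)).2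
    rw [e1, e2, e3]
    have f1 : ∫ ω, a (X t ω) * TT Q (U Q B n (t + 1)) (X t ω) ∂μ
        = ∫ x, a x * TT Q (U Q B n (t + 1)) x ∂ν := by
      rw [← hmap t, integral_map (hX t).aemeasurable]
      exact (ha.mul hTm).aestronglyMeasurable
    have f2 : ∫ ω, b (X (t + 1) ω) * U Q B n (t + 1) (X (t + 1) ω) ∂μ
        = ∫ x, b x * U Q B n (t + 1) x ∂ν := by
      rw [← hmap (t + 1), integral_map (hX (t + 1)).aemeasurable]
      exact (hb.mul hUm).aestronglyMeasurable
    rw [f1, f2, hab _ hgi]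
  have hgen : GX X h (t + 1) = MeasurableSpace.generateFrom
      (piiUnionInter (fun j => {s | MeasurableSet[MeasurableSpace.comap (X j) mS] s})
        (Set.Icc (t + 1) h)) := (generateFrom_piiUnionInter_measurableSet _ _).symm
  have hpi : IsPiSystem (piiUnionInter
      (fun j => {s | MeasurableSet[MeasurableSpace.comap (X j) mS] s}) (Set.Icc (t + 1) h)) :=
    isPiSystem_piiUnionInter _ (fun n => @MeasurableSpace.isPiSystem_measurableSet Ω
      (MeasurableSpace.comap (X n) mS)) _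
  have basic : ∀ s ∈ piiUnionInter
      (fun j => {s | MeasurableSet[MeasurableSpace.comap (X j) mS] s}) (Set.Icc (t + 1) h),
      ∫ ω in s, a (X t ω) ∂μ = ∫ ω in s, b (X (t + 1) ω) ∂μ := by
    rintro s ⟨T, hTs, f, hf, rfl⟩
    have hex : ∀ j, ∃ Bj : Set S, MeasurableSet Bj ∧ (j ∈ T → X j ⁻¹' Bj = f j) ∧
        (j ∉ T → Bj = Set.univ) := by
      intro j
      by_cases hj : j ∈ T
      · obtain ⟨Bj, h1, h2⟩ := hf j hj
        exact ⟨Bj, h1, fun _ => h2, fun h => absurd hj h⟩
      · exact ⟨Set.univ, MeasurableSet.univ, fun h => absurd h hj, fun _ => rfl⟩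
    choose B hB1 hB2 hB3 using hex
    have hind : ∀ ω, (∏ i ∈ range (h - (t + 1) + 1),
        (B (t + 1 + i)).indicator (1 : S → ℝ) (X (t + 1 + i) ω))
        = (⋂ x ∈ T, f x).indicator (1 : Ω → ℝ) ω := by
      intro ω
      by_cases hω : ω ∈ ⋂ x ∈ T, f x
      · rw [Set.indicator_of_mem hω]
        refine Finset.prod_eq_one fun i _ => ?_
        have : X (t + 1 + i) ω ∈ B (t + 1 + i) := by
          by_cases hj : (t + 1 + i) ∈ T
          · have := Set.mem_iInter₂.1 hω _ hj
            rw [← hB2 _ hj] at this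
            exact this
          · rw [hB3 _ hj]; trivial
        rw [Set.indicator_of_mem this]; rfl
      · rw [Set.indicator_of_notMem hω]
        simp only [Set.mem_iInter, not_forall] at hω
        obtain ⟨j, hj, hjω⟩ := hω
        have hjI := hTs hj
        refine Finset.prod_eq_zero (i := j - (t + 1)) ?_ ?_
        · simp only [Finset.mem_range]
          have := hjI.1; have := hjI.2; omega
        · have e : t + 1 + (j - (t + 1)) = j := by have := hjI.1; omega
          rw [e]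
          refine Set.indicator_of_notMem ?_ _
          intro hmem
          apply hjω
          rw [← hB2 _ hj]
          exact hmem
    have hms : MeasurableSet (⋂ x ∈ T, f x) := by
      refine Finset.measurableSet_biInter T fun j hj => ?_
      exact (hX j).comap_le _ (hf j hj)
    have k := key B hB1
    simp only [hind] at k
    rw [← integral_indicator hms, ← integral_indicator hms]
    convert k using 2
    · ext ω
      simp only [Set.indicator_apply, Pi.one_apply]; split_ifs <;> simp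
    · ext ω
      simp only [Set.indicator_apply, Pi.one_apply]; split_ifs <;> simp
  have total : ∫ ω, a (X t ω) ∂μ = ∫ ω, b (X (t + 1) ω) ∂μ := by
    have := basic Set.univ ⟨∅, by simp, fun _ => ∅, by simp, by simp⟩
    simpa using this
  induction A, hA using MeasurableSpace.induction_on_inter hgen hpi with
  | empty => simp
  | basic s hs => exact basic s hs
  | compl s hs ih =>
    rw [setIntegral_compl (hGle _ hs) hai, setIntegral_compl (hGle _ hs) hbi, ih, total]
  | iUnion f hd hm ih =>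
    rw [integral_iUnion (fun i => hGle _ (hm i)) hd hai.integrableOn,
      integral_iUnion (fun i => hGle _ (hm i)) hd hbi.integrableOn]
    exact tsum_congr ih

theorem mn_nonneg {g : ℕ → ℝ} (hg : ∀ t, 0 ≤ g t) (h : ℕ) : 0 ≤ mn g h := by
  induction h with
  | zero => simp [mn]
  | succ n ih => exact le_min ih (hg n)

theorem le_mn {g : ℕ → ℝ} {c : ℝ} (hc : c ≤ 1) (h : ℕ) (hg : ∀ t < h, c ≤ g t) : c ≤ mn g h := by
  induction h with
  | zero => simpa [mn] using hc
  | succ n ih =>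
    exact le_min (ih fun t ht => hg t (by omega)) (hg n (by omega))

theorem mn_meas {g : ℕ → Ω → ℝ} (hg : ∀ t, Measurable (g t)) (h : ℕ) :
    Measurable (fun ω => mn (fun t => g t ω) h) := by
  induction h with
  | zero => simp only [mn]; exact measurable_const
  | succ n ih => simp only [mn]; exact ih.min (hg n)

/-- the backward filtration -/
def GF (X : ℕ → Ω → S) (hX : ∀ i, Measurable (X i)) (h : ℕ) : Filtration ℕ mΩ where
  seq := fun i => GX X h (h - i)
  mono' := fun i j hij => GX_mono h (Nat.sub_le_sub_left hij h)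
  le' := fun i => GX_le hX h (h - i)

theorem sq_submart {M : ℕ → Ω → ℝ} {G : Filtration ℕ mΩ} (hM : Martingale M G μ)
    (hb : ∀ i ω, 0 ≤ M i ω ∧ M i ω ≤ 1) :
    Submartingale (fun i ω => (M i ω - M 0 ω) ^ 2) G μ := by
  have hMm : ∀ i, StronglyMeasurable[G i] (M i) := hM.stronglyAdapted
  have hadp : ∀ i, StronglyMeasurable[G i] (fun ω => M i ω - M 0 ω) := fun i =>
    (hMm i).sub ((hMm 0).mono (G.mono (Nat.zero_le i)))
  have hmeas : ∀ i, Measurable (M i) := fun i => ((hMm i).mono (G.le i)).measurable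
  have hint : ∀ i j, Integrable (fun ω => (M i ω - M j ω) ^ 2) μ := by
    intro i j
    refine Integrable.of_bound (((hmeas i).sub (hmeas j)).pow_const 2).aestronglyMeasurable 1
      (ae_of_all _ fun ω => ?_)
    have h1 := hb i ω
    have h2 := hb j ω
    rw [Real.norm_eq_abs, abs_of_nonneg (sq_nonneg _)]
    nlinarith
  refine submartingale_nat (fun i => (hadp i).pow 2) (fun i => hint i 0) fun i => ?_
  have hc : ConvexOn ℝ Set.univ (fun x : ℝ => x ^ 2) := even_two.convexOn_pow
  have hJ := hc.map_condExp_le_of_finiteDimensional (μ := μ) (G.le i)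
    (f := fun ω => M (i + 1) ω - M 0 ω)
    ((hM.integrable (i + 1)).sub (hM.integrable 0)) (hint (i + 1) 0)
  have hce : μ[fun ω => M (i + 1) ω - M 0 ω | G i] =ᵐ[μ] fun ω => M i ω - M 0 ω := by
    have h0 := condExp_sub (hM.integrable (i + 1)) (hM.integrable 0) (G i)
    have h1 := hM.condExp_ae_eq (Nat.le_succ i)
    have h2 : μ[M 0 | G i] = M 0 := condExp_of_stronglyMeasurable (G.le i)
      ((hMm 0).mono (G.mono (Nat.zero_le i))) (hM.integrable 0)
    refine h0.trans ?_
    rw [h2]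
    filter_upwards [h1] with ω h
    simp only [Pi.sub_apply, h]
  filter_upwards [hJ, hce] with ω h1 h2
  simp only [Function.comp] at h1
  rw [h2] at h1
  exact h1

theorem sq_diff {M : ℕ → Ω → ℝ} {G : Filtration ℕ mΩ} (hM : Martingale M G μ)
    (hb : ∀ i ω, 0 ≤ M i ω ∧ M i ω ≤ 1) (h : ℕ) :
    ∫ ω, (M h ω - M 0 ω) ^ 2 ∂μ = ∫ ω, M h ω ^ 2 ∂μ - ∫ ω, M 0 ω ^ 2 ∂μ := by
  have hMm : ∀ i, StronglyMeasurable[G i] (M i) := hM.stronglyAdapted
  have hmeas : ∀ i, Measurable (M i) := fun i => ((hMm i).mono (G.le i)).measurable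
  have hint : ∀ i j, Integrable (fun ω => M i ω * M j ω) μ := by
    intro i j
    refine bdd_int ((hmeas i).mul (hmeas j)) fun ω => ?_
    have h1 := hb i ω
    have h2 := hb j ω
    exact ⟨mul_nonneg h1.1 h2.1, mul_le_one₀ h1.2 h2.1 h2.2⟩
  have hcross : ∫ ω, M 0 ω * M h ω ∂μ = ∫ ω, M 0 ω * M 0 ω ∂μ := by
    rw [← integral_condExp (G.le 0) (f := fun ω => M 0 ω * M h ω)]
    have h1 := condExp_mul_of_stronglyMeasurable_left (μ := μ) (hMm 0) (hint 0 h)
      (hM.integrable h)
    refine integral_congr_ae ?_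
    refine h1.trans ?_
    filter_upwards [hM.condExp_ae_eq (Nat.zero_le h)] with ω hω
    simp only [Pi.mul_apply, hω]
  have e : ∀ ω, (M h ω - M 0 ω) ^ 2 = (M h ω * M h ω - 2 * (M 0 ω * M h ω)) + M 0 ω * M 0 ω :=
    fun ω => by ring
  have i1 : Integrable (fun ω => M h ω * M h ω - 2 * (M 0 ω * M h ω)) μ :=
    (hint h h).sub ((hint 0 h).const_mul 2)
  have i2 : Integrable (fun ω => 2 * (M 0 ω * M h ω)) μ := (hint 0 h).const_mul 2
  simp only [e]
  rw [integral_add i1 (hint 0 0), integral_sub (hint h h) i2, integral_const_mul, hcross]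
  simp only [sq]
  ring

end chain

theorem osc (hTT : S_TT) (hBK2 : S_BK2) (hML0 : S_ML) : S_OSC := by
  intro S _ Q _ ν _ hν Ω _ μ _ X hMC w hw hw1 h δ hh hδ
  have hT := (hTT S Q ν hν).1
  obtain ⟨hmap, -, hML⟩ := hML0 S Q ν hν Ω μ X hMC
  obtain ⟨-, hbk, hyk, -⟩ := hBK2 S Q ν hν
  have hX := hMC.meas
  have hwm : ∀ t, Measurable (yk Q ν w t) := fun t => (hyk w t hw hw1).1
  have hw01 : ∀ t x, 0 ≤ yk Q ν w t x ∧ yk Q ν w t x ≤ 1 := fun t => (hyk w t hw hw1).2
  set M : ℕ → Ω → ℝ := fun i ω => yk Q ν w (h - i) (X (h - i) ω) with hMdef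
  have hMb : ∀ i ω, 0 ≤ M i ω ∧ M i ω ≤ 1 := fun i ω => hw01 _ _
  have hMmeas : ∀ i, Measurable (M i) := fun i => (hwm _).comp (hX _)
  have hMG : ∀ i, Measurable[GF X hX h i] (M i) := fun i =>
    (hwm _).comp (X_meas_GX (X := X) ⟨le_rfl, Nat.sub_le h i⟩)
  have hMart : Martingale M (GF X hX h) μ := by
    refine martingale_of_setIntegral_eq_succ (fun i => (hMG i).stronglyMeasurable)
      (fun i => bdd_int (hMmeas i) (hMb i)) ?_
    intro i A hA
    by_cases hi : i < h
    · have e : h - i = (h - (i + 1)) + 1 := by omega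
      have hA' : MeasurableSet[GX X h ((h - (i + 1)) + 1)] A := by
        rw [← e]; exact hA
      have := set_form (μ := μ) (ν := ν) hT hX hmap hML (hwm (h - (i + 1)))
        (hw01 (h - (i + 1))) (hwm ((h - (i + 1)) + 1)) (hw01 ((h - (i + 1)) + 1)) (by
          intro g hg
          have := hbk (yk Q ν w (h - (i + 1))) g (hwm _) (hw01 _) hg
          rw [← this]
          simp only [yk, Function.iterate_succ_apply']) h (h - (i + 1)) (by omega) A hA'
      simp only [hMdef]
      rw [e, this]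
    · have e : h - (i + 1) = h - i := by omega
      simp only [hMdef, e]
  have hSub := sq_submart hMart hMb
  obtain ⟨ε, hε⟩ : ∃ ε : ℝ≥0, (ε : ℝ) = (δ / 2) ^ 2 :=
    ⟨((δ / 2) ^ 2).toNNReal, Real.coe_toNNReal _ (sq_nonneg _)⟩
  have hmax := maximal_ineq hSub (fun i ω => sq_nonneg _) (ε := ε) h
  set bad : Set Ω := {ω | (ε : ℝ) ≤
    (range (h + 1)).sup' nonempty_range_add_one fun k => (M k ω - M 0 ω) ^ 2} with hbad
  have hbadm : MeasurableSet bad := by
    refine measurableSet_le measurable_const (Finset.measurable_range_sup'' fun n _ => ?_)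
    exact ((hMmeas n).sub (hMmeas 0)).pow_const 2
  set v : ℝ := ∫ x, w x ^ 2 ∂ν - ∫ x, yk Q ν w h x ^ 2 ∂ν with hv
  have hM2 : ∀ i, Integrable (fun ω => (M i ω - M 0 ω) ^ 2) μ := hSub.integrable
  have hEv : ∫ ω, (M h ω - M 0 ω) ^ 2 ∂μ = v := by
    rw [sq_diff hMart hMb h, hv]
    have e1 : ∫ ω, M h ω ^ 2 ∂μ = ∫ x, w x ^ 2 ∂ν := by
      rw [← hmap 0, integral_map (hX 0).aemeasurable (hw.pow_const 2).aestronglyMeasurable]
      simp only [hMdef, Nat.sub_self, yk, Function.iterate_zero, id]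
    have e2 : ∫ ω, M 0 ω ^ 2 ∂μ = ∫ x, yk Q ν w h x ^ 2 ∂ν := by
      have e3 : ∫ x, yk Q ν w h x ^ 2 ∂(μ.map (X h)) = ∫ ω, yk Q ν w h (X h ω) ^ 2 ∂μ :=
        integral_map (hX h).aemeasurable ((hwm h).pow_const 2).aestronglyMeasurable
      rw [hmap h] at e3
      rw [e3]
      simp only [hMdef, Nat.sub_zero]
    rw [e1, e2]
  have hbadr : (δ / 2) ^ 2 * μ.real bad ≤ v := by
    have h1 : ∫ ω in bad, (M h ω - M 0 ω) ^ 2 ∂μ ≤ v := by
      rw [← hEv]
      exact setIntegral_le_integral (hM2 h) (ae_of_all _ fun ω => sq_nonneg _)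
    have h0 : 0 ≤ ∫ ω in bad, (M h ω - M 0 ω) ^ 2 ∂μ := integral_nonneg fun ω => sq_nonneg _
    have h2 := ENNReal.toReal_mono ENNReal.ofReal_ne_top hmax
    rw [ENNReal.toReal_mul, ENNReal.toReal_ofReal h0] at h2
    rw [ENNReal.coe_toReal, hε] at h2
    exact h2.trans h1
  have hreal : μ.real bad ≤ 4 * v / δ ^ 2 := by
    rw [le_div_iff₀ (by positivity)]
    nlinarith
  have hpt : ∀ ω, w (X 0 ω) - mn (fun t => yk Q ν w t (X t ω)) h
      ≤ δ + bad.indicator (1 : Ω → ℝ) ω := by
    intro ω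
    by_cases hω : ω ∈ bad
    · rw [Set.indicator_of_mem hω]
      have h1 := mn_nonneg (g := fun t => yk Q ν w t (X t ω)) (fun t => (hw01 t _).1) h
      have h2 := (hw1 (X 0 ω)).2
      simp only [Pi.one_apply]
      linarith
    · rw [Set.indicator_of_notMem hω]
      have hlt : ∀ k ≤ h, |M k ω - M 0 ω| < δ / 2 := by
        intro k hk
        by_contra hcon
        apply hω
        simp only [not_lt] at hcon
        show (ε : ℝ) ≤ (range (h + 1)).sup' nonempty_range_add_one fun k => (M k ω - M 0 ω) ^ 2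
        refine Finset.le_sup'_of_le _ (Finset.mem_range.2 (Nat.lt_succ_of_le hk)) ?_
        rw [hε]
        rw [← sq_abs (M k ω - M 0 ω)]
        exact pow_le_pow_left₀ (by positivity) hcon 2
      have hMh : M h ω = w (X 0 ω) := by
        simp only [hMdef, Nat.sub_self, yk, Function.iterate_zero, id]
      have h3 : w (X 0 ω) - δ ≤ mn (fun t => yk Q ν w t (X t ω)) h := by
        refine le_mn (by have := (hw1 (X 0 ω)).2; linarith) h fun t ht => ?_
        have e1 : M (h - t) ω = yk Q ν w t (X t ω) := by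
          simp only [hMdef]
          rw [Nat.sub_sub_self ht.le]
        have a1 := abs_lt.1 (hlt (h - t) (Nat.sub_le h t))
        have a2 := abs_lt.1 (hlt h le_rfl)
        rw [hMh] at a2
        rw [e1] at a1
        linarith [a1.1, a2.2]
      linarith
  have hmnm : Measurable fun ω => mn (fun t => yk Q ν w t (X t ω)) h :=
    mn_meas (fun t => (hwm t).comp (hX t)) h
  have hmn01 : ∀ ω, 0 ≤ mn (fun t => yk Q ν w t (X t ω)) h ∧
      mn (fun t => yk Q ν w t (X t ω)) h ≤ 1 := by
    intro ω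
    refine ⟨mn_nonneg (fun t => (hw01 t _).1) h, ?_⟩
    obtain ⟨n, rfl⟩ : ∃ n, h = n + 1 := ⟨h - 1, by omega⟩
    exact (min_le_right _ _).trans (hw01 n _).2
  have hi1 : Integrable (fun ω => w (X 0 ω) - mn (fun t => yk Q ν w t (X t ω)) h) μ :=
    (bdd_int (hw.comp (hX 0)) fun ω => hw1 _).sub (bdd_int hmnm hmn01)
  have hi2 : Integrable (bad.indicator (1 : Ω → ℝ)) μ :=
    (integrable_const (1:ℝ)).indicator hbadm
  calc ∫ ω, (w (X 0 ω) - mn (fun t => yk Q ν w t (X t ω)) h) ∂μ
      ≤ ∫ ω, (δ + bad.indicator (1 : Ω → ℝ) ω) ∂μ :=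
        integral_mono hi1 ((integrable_const δ).add hi2) hpt
    _ = δ + μ.real bad := by
        rw [integral_add (integrable_const δ) hi2, integral_const, integral_indicator_one hbadm]
        simp
    _ ≤ δ + 4 * v / δ ^ 2 := by linarith

end Pool.Agent.N280.ME
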